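import Pool.Agent.H12.UT.Targets2

/-!
MP_8b378c_ag, board utn_modules: rows E1 and E2.
-/

namespace Pool.Agent.H52.UT

open Polynomial
open Pool.Agent.H12.UT

theorem pf_E1 : T_E1 := by
  intro κ E _ _ _ _ c hc hsq
  obtain ⟨r, hr⟩ := hsq
  obtain ⟨A, B, hB, rfl⟩ := IsFractionRing.div_surjective (A := κ[X]) r
  have hB0 : B ≠ 0 := nonZeroDivisors.ne_zero hB
  have hi : Function.Injective (algebraMap κ[X] E) := IsFractionRing.injective κ[X] E
  have hB' : algebraMap κ[X] E B ≠ 0 := by
    intro h; exact hB0 (hi (by rw [h, map_zero]))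
  have h1 : C c * B ^ 2 = A ^ 2 := by
    apply hi
    rw [map_mul, map_pow, map_pow, hr]
    field_simp
  have h2 := congrArg Polynomial.leadingCoeff h1
  rw [leadingCoeff_mul, leadingCoeff_C, leadingCoeff_pow, leadingCoeff_pow] at h2
  have hb : B.leadingCoeff ≠ 0 := leadingCoeff_ne_zero.2 hB0
  apply hc
  refine ⟨A.leadingCoeff / B.leadingCoeff, ?_⟩
  field_simp
  linear_combination h2

theorem pf_E2 : T_E2 := by
  intro κ E _ _ _ _ g hg h2 hn
  obtain ⟨x, y, hxy⟩ := hn
  have hi : Function.Injective (algebraMap κ[X] E) := IsFractionRing.injective κ[X] E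
  obtain ⟨A₁, D₁, hD₁, rfl⟩ := IsFractionRing.div_surjective (A := κ[X]) x
  obtain ⟨B₂, D₂, hD₂, rfl⟩ := IsFractionRing.div_surjective (A := κ[X]) y
  have hD₁0 : D₁ ≠ 0 := nonZeroDivisors.ne_zero hD₁
  have hD₂0 : D₂ ≠ 0 := nonZeroDivisors.ne_zero hD₂
  have e1 : algebraMap κ[X] E D₁ ≠ 0 := by
    intro h; exact hD₁0 (hi (by rw [h, map_zero]))
  have e2 : algebraMap κ[X] E D₂ ≠ 0 := by
    intro h; exact hD₂0 (hi (by rw [h, map_zero]))
  have h20 : (2 : κ) ≠ 0 := by
    intro h
    exact h2 ⟨0, 0, by rw [h]; ring⟩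
  set A := A₁ * D₂ with hA
  set B := B₂ * D₁ with hB
  set D := D₁ * D₂ with hD
  have hD0 : D ≠ 0 := mul_ne_zero hD₁0 hD₂0
  have key : C 2 * D ^ 2 = A ^ 2 - C g * B ^ 2 := by
    apply hi
    have h3 : algebraMap κ[X] E (C 2) = 2 := by
      rw [map_ofNat C 2, map_ofNat]
    rw [map_mul, h3, map_sub, map_mul, map_pow, map_pow, map_pow, hA, hB, hD, map_mul, map_mul,
      map_mul]
    rw [hxy]
    field_simp
  set n := max A.natDegree B.natDegree with hn
  have hAn : A.natDegree ≤ n := le_max_left _ _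
  have hBn : B.natDegree ≤ n := le_max_right _ _
  have hcA : (A ^ 2).coeff (2 * n) = (A.coeff n) ^ 2 := coeff_pow_of_natDegree_le hAn
  have hcB : (B ^ 2).coeff (2 * n) = (B.coeff n) ^ 2 := coeff_pow_of_natDegree_le hBn
  -- the two top coefficients
  have hab : ¬ (A.coeff n = 0 ∧ B.coeff n = 0) := by
    rintro ⟨ha, hb⟩
    have hA0 : A = 0 ∧ B = 0 := by
      rcases le_total B.natDegree A.natDegree with h | h
      · have hn1 : n = A.natDegree := max_eq_left h
        rw [hn1] at ha hb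
        have hA0 : A = 0 := leadingCoeff_eq_zero.1 ha
        rw [hA0, natDegree_zero] at h hb
        have hB1 : B.natDegree = 0 := Nat.le_zero.1 h
        refine ⟨hA0, leadingCoeff_eq_zero.1 ?_⟩
        rw [leadingCoeff, hB1]; exact hb
      · have hn1 : n = B.natDegree := max_eq_right h
        rw [hn1] at ha hb
        have hB0 : B = 0 := leadingCoeff_eq_zero.1 hb
        rw [hB0, natDegree_zero] at h ha
        have hA1 : A.natDegree = 0 := Nat.le_zero.1 h
        refine ⟨leadingCoeff_eq_zero.1 ?_, hB0⟩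
        rw [leadingCoeff, hA1]; exact ha
    rw [hA0.1, hA0.2] at key
    have h4 : C (2 : κ) * D ^ 2 = 0 := by rw [key]; ring
    rcases mul_eq_zero.1 h4 with h5 | h5
    · exact h20 (C_eq_zero.1 h5)
    · exact hD0 (pow_eq_zero_iff (two_ne_zero) |>.1 h5)
  -- degree of D
  have hDn : D.natDegree ≤ n := by
    have h3 : (C (2 : κ) * D ^ 2).natDegree = 2 * D.natDegree := by
      rw [natDegree_C_mul h20, natDegree_pow]
    have h4 : (A ^ 2 - C g * B ^ 2).natDegree ≤ 2 * n := by
      refine (natDegree_sub_le _ _).trans (max_le ?_ ?_)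
      · rw [natDegree_pow]; omega
      · refine (natDegree_C_mul_le _ _).trans ?_
        rw [natDegree_pow]; omega
    rw [← key, h3] at h4
    omega
  have hcD : (D ^ 2).coeff (2 * n) = (D.coeff n) ^ 2 := coeff_pow_of_natDegree_le hDn
  have hk := congrArg (fun p => p.coeff (2 * n)) key
  simp only [coeff_C_mul, coeff_sub, hcA, hcB, hcD] at hk
  have hd : D.coeff n ≠ 0 := by
    intro h0
    rw [h0] at hk
    have h5 : A.coeff n ^ 2 = g * B.coeff n ^ 2 := by linear_combination -hk
    by_cases hb : B.coeff n = 0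
    · apply hab
      refine ⟨?_, hb⟩
      rw [hb] at h5
      have : A.coeff n ^ 2 = 0 := by rw [h5]; ring
      exact pow_eq_zero_iff two_ne_zero |>.1 this
    · apply hg
      refine ⟨A.coeff n / B.coeff n, ?_⟩
      field_simp
      linear_combination -h5
  apply h2
  refine ⟨A.coeff n / D.coeff n, B.coeff n / D.coeff n, ?_⟩
  field_simp
  linear_combination hk

end Pool.Agent.H52.UT
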