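import Pool.Agent.H12.UT.Targets2

/-!
MP_8b378c_ag, board utn_modules: rows V1 and V2.
-/

namespace Pool.Agent.H52.UT

open Polynomial
open Pool.Agent.H12.UT

lemma not_sq {E : Type} [Field E] {a r s : E} (ha : ¬ IsSquare a) (hr : r ≠ 0)
    (hs : s = a * r ^ 2) : ¬ IsSquare s := by
  rintro ⟨t, ht⟩
  apply ha
  refine ⟨t / r, ?_⟩
  have h : a * r ^ 2 = t * t := by rw [← hs, ht]
  field_simp
  linear_combination h

lemma nv_scale {E : Type} [Field E] {a r s n : E} (hs : s = a * r ^ 2) (h : NV s n) : NV a n := by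
  obtain ⟨x, y, h⟩ := h
  exact ⟨x, r * y, by rw [h, hs]; ring⟩

theorem pf_V1 (hB1 : T_B1) : T_V1 := by
  intro E _ a r e c u v X Y ha hr hc he hu hv huv heq
  have hev : u.orderTop < (e * v).orderTop := by
    rcases he with he | he
    · rw [he, zero_mul, HahnSeries.orderTop_zero]
      exact HahnSeries.orderTop_lt_top.2 hu
    · have he0 : e ≠ 0 := by
        rintro rfl
        rw [HahnSeries.order_zero] at he
        exact lt_irrefl _ he
      have hev0 : e * v ≠ 0 := mul_ne_zero he0 hv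
      rw [← HahnSeries.order_eq_orderTop_of_ne_zero hu,
        ← HahnSeries.order_eq_orderTop_of_ne_zero hev0, HahnSeries.order_mul he0 hv]
      have h : u.order < e.order + v.order := by linarith
      exact_mod_cast h
  have h1 : (u - e * v).leadingCoeff = u.leadingCoeff := HahnSeries.leadingCoeff_sub hev
  have he1 : (1 : HS E).orderTop < e.orderTop := by
    rw [HahnSeries.orderTop_one]
    rcases he with he | he
    · rw [he, HahnSeries.orderTop_zero]
      exact WithTop.coe_lt_top (0 : ℝ)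
    · exact HahnSeries.zero_lt_orderTop_of_order he
  have h2 : (1 - e : HS E).leadingCoeff = 1 := by
    rw [HahnSeries.leadingCoeff_sub he1, HahnSeries.leadingCoeff_one]
  have h3 : (X ^ 2 - c * Y ^ 2).leadingCoeff = u.leadingCoeff := by
    rw [← h1, heq, HahnSeries.leadingCoeff_mul, h2, one_mul]
  have h4 : X ^ 2 - c * Y ^ 2 ≠ 0 := by
    rw [← HahnSeries.leadingCoeff_ne_zero, h3, HahnSeries.leadingCoeff_ne_zero]
    exact hu
  have h5 := hB1 E c X Y (not_sq ha hr hc) h4
  rw [h3] at h5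
  exact nv_scale hc h5

theorem pf_V2 (hB1 : T_B1) : T_V2 := by
  intro E _ g r r' c c' u v X Y X' Y' hg h2 hr hr' hc hc' hu hv h hv'
  by_contra hlt
  rw [not_le] at hlt
  have ht : v.orderTop < u.orderTop := by
    rw [← HahnSeries.order_eq_orderTop_of_ne_zero hu,
      ← HahnSeries.order_eq_orderTop_of_ne_zero hv]
    exact_mod_cast hlt
  have h1 : (u + v).leadingCoeff = v.leadingCoeff := HahnSeries.leadingCoeff_add_eq_right ht
  have hl2 : (2 : HS E).leadingCoeff = 2 := by
    have : (2 : HS E) = HahnSeries.single 0 2 := by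
      have h := map_ofNat (HahnSeries.C : E →+* HahnSeries ℝ E) 2
      exact h.symm
    rw [this, HahnSeries.leadingCoeff_of_single]
  have h3 : v.leadingCoeff = 2 * (X ^ 2 - c * Y ^ 2).leadingCoeff := by
    rw [← h1, h, HahnSeries.leadingCoeff_mul, hl2]
  have hv0 : v.leadingCoeff ≠ 0 := HahnSeries.leadingCoeff_ne_zero.2 hv
  have h4 : (X ^ 2 - c * Y ^ 2).leadingCoeff ≠ 0 := by
    intro h0
    rw [h0, mul_zero] at h3
    exact hv0 h3
  have h5 := nv_scale hc (hB1 E c X Y (not_sq hg hr hc) (HahnSeries.leadingCoeff_ne_zero.1 h4))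
  have h6 : NV g v.leadingCoeff := by
    have h7 := hB1 E c' X' Y' (not_sq hg hr' hc') (by rw [← hv']; exact hv)
    rw [← hv'] at h7
    exact nv_scale hc' h7
  set m := (X ^ 2 - c * Y ^ 2).leadingCoeff with hm
  obtain ⟨x, y, hxy⟩ := h5
  obtain ⟨z, w, hzw⟩ := h6
  apply h2
  refine ⟨(x * z + g * y * w) / m, (x * w + y * z) / m, ?_⟩
  have h8 : 2 * m * m = (x * z + g * y * w) ^ 2 - g * (x * w + y * z) ^ 2 := by
    have h9 : 2 * m = z ^ 2 - g * w ^ 2 := by rw [← h3, hzw]
    have h10 : 2 * m * m = (z ^ 2 - g * w ^ 2) * (x ^ 2 - g * y ^ 2) := by rw [← hxy, ← h9]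
    rw [h10]; ring
  field_simp
  linear_combination h8

end Pool.Agent.H52.UT
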